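import Pool.Agent.Y808.LB.StmM
import Pool.Agent.H920R2.Sr1

/-!
# Job SMF: local rings of smooth algebras are flat with regular closed fibres (helper475)
-/

set_option autoImplicit false

open IsLocalRing

namespace Pool.Agent.Y475.LB

open Pool.Agent.Y808.LB

theorem fibre_aux (R A : Type) [CommRing R] [CommRing A] [Algebra R A] (hsm : Algebra.Smooth R A)
    (p : Ideal R) [p.IsPrime] (q' : Ideal (p.Fiber A)) [q'.IsPrime] (r : Ideal A) [r.IsPrime]
    (h : q'.comap Algebra.TensorProduct.includeRight = r) :
    IsRegularLocalRing (Localization.AtPrime r ⧸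
      p.map (algebraMap R (Localization.AtPrime r))) := by
  subst h
  have h1 : Algebra.Smooth p.ResidueField (p.Fiber A) := inferInstance
  have h2 : IsRegularLocalRing (Localization.AtPrime q') :=
    Pool.Agent.H920R2.regular_of_smooth (k := p.ResidueField) q'
  have e := Ideal.Fiber.algEquivAux₂ p q'
  have h3 : IsRegularLocalRing (Localization.AtPrime
      (q'.comap (Algebra.TensorProduct.includeRight : A →ₐ[R] p.Fiber A)) ⧸
        (p.map (algebraMap R A)).map (algebraMap A (Localization.AtPrime
          (q'.comap (Algebra.TensorProduct.includeRight : A →ₐ[R] p.Fiber A))))) :=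
    IsRegularLocalRing.of_ringEquiv (R := Localization.AtPrime q') e.toRingEquiv
  have h4 : (p.map (algebraMap R A)).map (algebraMap A (Localization.AtPrime
      (q'.comap (Algebra.TensorProduct.includeRight : A →ₐ[R] p.Fiber A)))) =
      p.map (algebraMap R (Localization.AtPrime
      (q'.comap (Algebra.TensorProduct.includeRight : A →ₐ[R] p.Fiber A)))) := by
    rw [Ideal.map_map, ← IsScalarTower.algebraMap_eq]
  exact IsRegularLocalRing.of_ringEquiv (Ideal.quotEquivOfEq h4)

theorem t_SMF : S_SMF := by
  intro R A _ _ _ _ hsm q hq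
  refine ⟨?_, ?_⟩
  · have h1 : Module.Flat R A := inferInstance
    have h2 : Module.Flat A (Localization.AtPrime q) := IsLocalization.flat _ q.primeCompl
    exact Module.Flat.trans R A (Localization.AtPrime q)
  · have hp : (q.comap (algebraMap R A)).IsPrime := inferInstance
    let p : PrimeSpectrum R := ⟨q.comap (algebraMap R A), hp⟩
    let x : (PrimeSpectrum.comap (algebraMap R A) ⁻¹' {p} : Set (PrimeSpectrum A)) :=
      ⟨⟨q, hq⟩, rfl⟩
    have h1 := (PrimeSpectrum.preimageEquivFiber R A p).symm_apply_apply x
    have h2 : ((PrimeSpectrum.preimageEquivFiber R A p) x).asIdeal.comap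
        (Algebra.TensorProduct.includeRight : A →ₐ[R] p.asIdeal.Fiber A) = q := by
      exact congrArg (fun y => y.1.asIdeal) h1
    exact fibre_aux R A hsm p.asIdeal _ q h2

end Pool.Agent.Y475.LB
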